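import Pool.Agent.Helper58.Bil.LinkDefs
import Pool.Agent.Helper58.Bil.LinkBaseDef

/-!
# BIL-IDT: at `t = 0` the full cycle is the identity (time reversal)
-/

set_option autoImplicit false

namespace Pool.Agent.Helper58.Bil

open Real Set Filter Topology

theorem cc_zero' (α D e : ℝ) : cc α 0 D e = -(tan α * D) := by simp [cc]

theorem sg_zero' (α D e : ℝ) : sg α 0 D e = 2 * e * sin α - tan α * D ^ 2 := by simp [sg]

theorem zer_mem' {G : Type} (Φ : ℝ × G → ℝ) {a b : ℝ} (hab : a ≤ b) (q : G) :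
    zer Φ a b q ∈ Icc a b := by
  unfold zer
  split_ifs with h
  · exact h.choose_spec.1
  · exact left_mem_Icc.2 hab

/-- The time reversal argument at a single point `q` with `q.1 = 0`. -/
theorem idt_core {α : ℝ} (hα1 : 0 < α) (hα2 : α < π / 2) (q : QQ) (h0 : q.1 = 0)
    (r : LinkRel α (al2 α) (-1) q.1 (PP q.2.1 q.2.2.1) 0 q.2.2.2.1 q.2.2.2.2
      (N2 α q) (e2 α q) (h2 α q) (D1 α q) (D2 α q) (K1 α q))
    (u3 : ∀ D ∈ Icc (-(2 / tan (al2 α))) 0, F3 α (D, q) = 0 → D = D3 α q)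
    (u4 : ∀ D ∈ Icc (-(2 / tan α)) 0, F4 α (D, q) = 0 → D = D4 α q) :
    XX α q = 0 ∧ e4 α q = q.2.2.2.1 ∧ h4 α q = q.2.2.2.2 := by
  have hsin : sin α ≠ 0 := (sin_pos_of_pos_of_lt_pi hα1 (by linarith [pi_pos])).ne'
  have hta : 0 < tan α := tan_pos_of_pos_of_lt_pi_div_two hα1 hα2
  have hb1 : 0 < al2 α := by unfold al2; linarith
  have hb2 : al2 α < π / 2 := by unfold al2; linarith
  have htb : 0 < tan (al2 α) := tan_pos_of_pos_of_lt_pi_div_two hb1 hb2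
  have m1 : D1 α q ∈ Icc 0 (2 / tan α) := zer_mem' _ (by positivity) _
  have m2 : D2 α q ∈ Icc 0 (2 / tan (al2 α)) := zer_mem' _ (by positivity) _
  obtain ⟨r1, r2, r3, r4, r5, r6⟩ := r
  simp only [h0, cc_zero', sg_zero', zero_mul, add_zero, zero_sub, zero_add] at r1 r2 r3 r4 r6
  -- `D3 = - D2`
  have h5 : D1 α q + D2 α q + D2 α q = D1 α q + 2 * D2 α q := by ring
  have h6 : D1 α q + D2 α q + -D2 α q + 2 * -D1 α q = -D1 α q := by ring
  have f3 : F3 α (-D2 α q, q) = 0 := by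
    simp only [F3, N2, h0, cc_zero', zero_mul, add_zero, sub_neg_eq_add, h5]
    linarith
  have h3 : D3 α q = -D2 α q := (u3 _ ⟨by linarith [m2.2], by linarith [m2.1]⟩ f3).symm
  have hK2 : K2 α q = - K1 α q := by
    simp only [K2, h3, h0, cc_zero', zero_mul, add_zero]
    linarith
  -- `D4 = - D1`
  have f4 : F4 α (-D1 α q, q) = 0 := by
    simp only [F4, N2, h3, hK2, h6, h0, cc_zero']
    linarith
  have h4' : D4 α q = -D1 α q := (u4 _ ⟨by linarith [m1.2], by linarith [m1.1]⟩ f4).symm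
  refine ⟨?_, ?_, ?_⟩
  · simp only [XX, h3, h4', N2]; ring
  · simp only [e4, E4f, h3, h4', N2, h5, h6, sub_neg_eq_add, h0, sg_zero', zero_mul,
      add_zero]
    rw [intervalIntegral.integral_symm]
    field_simp
    linarith
  · simp only [h4, h3, h4', N2, h6, hK2, h0, zero_mul, add_zero]
    field_simp
    linarith

/-- `idt` from the fields `rel`, `uni` of `LinkBase`. -/
theorem idt_of {α : ℝ} (hα1 : 0 < α) (hα2 : α < π / 2) (x e : ℝ)
    (rel : ∀ᶠ q in 𝓝 (q0 x e),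
      LinkRel α (al2 α) (-1) q.1 (PP q.2.1 q.2.2.1) 0 q.2.2.2.1 q.2.2.2.2
        (N2 α q) (e2 α q) (h2 α q) (D1 α q) (D2 α q) (K1 α q) ∧
      LinkRel (al2 α) α 1 q.1 (PP q.2.1 q.2.2.1) (N2 α q) (e2 α q) (h2 α q)
        (XX α q) (e4 α q) (h4 α q) (D3 α q) (D4 α q) (K2 α q))
    (uni : ∀ᶠ q in 𝓝 (q0 x e),
      (∀ D ∈ Icc (-(2 / tan (al2 α))) 0, F3 α (D, q) = 0 → D = D3 α q) ∧
      (∀ D ∈ Icc (-(2 / tan α)) 0, F4 α (D, q) = 0 → D = D4 α q)) :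
    ∀ᶠ q in 𝓝 (q0 x e), q.1 = 0 → XX α q = 0 ∧ e4 α q = q.2.2.2.1 ∧ h4 α q = q.2.2.2.2 := by
  filter_upwards [rel, uni] with q hq1 hq2 h0
  exact idt_core hα1 hα2 q h0 hq1.1 hq2.1 hq2.2

/-- `idt` from `LinkBase`. -/
theorem LinkBase.idt {α x e : ℝ} (L : LinkBase α x e) (hα1 : 0 < α) (hα2 : α < π / 2) :
    ∀ᶠ q in 𝓝 (q0 x e), q.1 = 0 → XX α q = 0 ∧ e4 α q = q.2.2.2.1 ∧ h4 α q = q.2.2.2.2 :=
  idt_of hα1 hα2 x e L.rel L.uni

end Pool.Agent.Helper58.Bil
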